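import Pool.Agent.helper23.TH.Spec

/-! # Module th:RGL: regularisation -/

set_option autoImplicit false

namespace Pool.Agent.helper23.TH

open scoped BigOperators

/-- A subset of given size with at least the average sum. -/
theorem RGL_top {V : Type} [DecidableEq V] (f : V → ℝ) (hf : ∀ v, 0 ≤ f v) (n : ℕ) :
    ∀ (U : Finset V) (b : ℕ), U.card = n → b ≤ n →
      ∃ B ⊆ U, B.card = b ∧ (b : ℝ) * ∑ v ∈ U, f v ≤ n * ∑ v ∈ B, f v := by
  induction n with
  | zero =>
    intro U b hU hb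
    refine ⟨∅, Finset.empty_subset _, by simp; omega, ?_⟩
    have : b = 0 := by omega
    subst this
    simp
  | succ n ih =>
    intro U b hU hb
    rcases Nat.eq_or_lt_of_le hb with rfl | hb
    · exact ⟨U, subset_rfl, hU, le_rfl⟩
    rcases Nat.eq_zero_or_pos b with rfl | hb0
    · exact ⟨∅, Finset.empty_subset _, by simp, by simp⟩
    have hne : U.Nonempty := by
      rw [← Finset.card_pos]; omega
    obtain ⟨x, hx, hmin⟩ := Finset.exists_min_image U f hne
    obtain ⟨B, hB, hBc, hBs⟩ := ih (U.erase x) b (by rw [Finset.card_erase_of_mem hx]; omega)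
      (by omega)
    refine ⟨B, hB.trans (Finset.erase_subset _ _), hBc, ?_⟩
    have h1 : ∑ v ∈ U, f v = f x + ∑ v ∈ U.erase x, f v := (Finset.add_sum_erase U f hx).symm
    have h2 : ((n : ℝ) + 1) * f x ≤ ∑ v ∈ U, f v := by
      have := Finset.card_nsmul_le_sum U f (f x) hmin
      rw [hU, nsmul_eq_mul] at this
      push_cast at this
      exact this
    have h3 : (0 : ℝ) ≤ ∑ v ∈ B, f v := Finset.sum_nonneg fun v _ => hf v
    have hn : (0 : ℝ) < n := by
      have : 0 < n := by omega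
      exact_mod_cast this
    have hb' : (0 : ℝ) < b := by exact_mod_cast hb0
    push_cast
    -- n * S ≤ (n + 1) * S'
    have h4 : (n : ℝ) * ∑ v ∈ U, f v ≤ (n + 1) * ∑ v ∈ U.erase x, f v := by
      rw [h1] at h2 ⊢
      nlinarith
    have h5 : (n : ℝ) * (b * ∑ v ∈ U, f v) ≤ n * ((n + 1) * ∑ v ∈ B, f v) := by
      calc (n : ℝ) * (b * ∑ v ∈ U, f v) = b * (n * ∑ v ∈ U, f v) := by ring
        _ ≤ b * ((n + 1) * ∑ v ∈ U.erase x, f v) := by
            exact mul_le_mul_of_nonneg_left h4 hb'.le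
        _ = (n + 1) * (b * ∑ v ∈ U.erase x, f v) := by ring
        _ ≤ (n + 1) * (n * ∑ v ∈ B, f v) := by
            exact mul_le_mul_of_nonneg_left hBs (by positivity)
        _ = n * ((n + 1) * ∑ v ∈ B, f v) := by ring
    exact le_of_mul_le_mul_left h5 hn

/-- double counting -/
theorem RGL_dc {V : Type} [Fintype V] (A : V → V → Prop) (hA : ∀ u v, A u v → A v u) (S T : Finset V) :
    ∑ v ∈ S, (dg A T v : ℝ) = ∑ w ∈ T, (dg A S w : ℝ) := by
  classical
  unfold dg
  simp only [Finset.card_filter, Nat.cast_sum]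
  rw [Finset.sum_comm]
  refine Finset.sum_congr rfl fun w _ => Finset.sum_congr rfl fun v _ => ?_
  have : A v w ↔ A w v := ⟨hA v w, hA w v⟩
  by_cases h : A v w
  · rw [if_pos h, if_pos (this.1 h)]
  · rw [if_neg h, if_neg (fun h' => h (this.2 h'))]

theorem RGL_mono {V : Type} [Fintype V] (A : V → V → Prop) {S T : Finset V} (h : S ⊆ T) (v : V) :
    dg A S v ≤ dg A T v := by
  classical
  unfold dg
  exact Finset.card_le_card (Finset.filter_subset_filter _ h)

theorem RGL_split {V : Type} [Fintype V] [DecidableEq V] (A : V → V → Prop) {T U : Finset V} (h : T ⊆ U)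
    (v : V) : dg A U v = dg A (U \ T) v + dg A T v := by
  classical
  unfold dg
  rw [← Finset.card_union_of_disjoint]
  · congr 1
    ext w
    simp only [Finset.mem_filter, Finset.mem_union, Finset.mem_sdiff]
    constructor
    · rintro ⟨h1, h2⟩
      by_cases hT : w ∈ T
      · exact Or.inr ⟨hT, h2⟩
      · exact Or.inl ⟨⟨h1, hT⟩, h2⟩
    · rintro (⟨⟨h1, _⟩, h2⟩ | ⟨h1, h2⟩)
      · exact ⟨h1, h2⟩
      · exact ⟨h h1, h2⟩
  · rw [Finset.disjoint_left]
    intro w hw hw'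
    simp only [Finset.mem_filter, Finset.mem_sdiff] at hw hw'
    exact hw.1.2 hw'.1

theorem RGL_pow (l : ℕ) (hl : 1 ≤ l) (M n s : ℝ) (hM : 0 ≤ M) (hn : 0 < n) (hs0 : 0 < s)
    (hs : s ≤ 3 * n / 72 ^ l) :
    (72 : ℝ) ^ l * (M * s ^ (1 + 1 / (l : ℝ))) ≤ M * n ^ (1 + 1 / (l : ℝ)) / 8 := by
  have hl0 : (0 : ℝ) < l := by exact_mod_cast hl
  have hk : (0 : ℝ) < 72 ^ l := by positivity
  have h1 : s ^ (1 + 1 / (l : ℝ)) ≤ (3 * n / 72 ^ l) ^ (1 + 1 / (l : ℝ)) :=
    Real.rpow_le_rpow hs0.le hs (by positivity)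
  have h2 : ((3 : ℝ) * n / 72 ^ l) ^ (1 + 1 / (l : ℝ)) =
      n ^ (1 + 1 / (l : ℝ)) * ((3 / 72 ^ l) ^ (1 + 1 / (l : ℝ))) := by
    rw [← Real.mul_rpow hn.le (by positivity)]
    congr 1
    ring
  have h3 : ((3 : ℝ) / 72 ^ l) ^ (1 + 1 / (l : ℝ)) ≤ (1 / 8) / 72 ^ l := by
    rw [Real.rpow_add (by positivity), Real.rpow_one]
    have h4 : ((3 : ℝ) / 72 ^ l) ^ (1 / (l : ℝ)) ≤ 3 / 72 := by
      rw [Real.div_rpow (by norm_num) hk.le]
      have h5 : ((72 : ℝ) ^ l) ^ (1 / (l : ℝ)) = 72 := by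
        rw [← Real.rpow_natCast, ← Real.rpow_mul (by norm_num)]
        rw [mul_one_div_cancel hl0.ne', Real.rpow_one]
      rw [h5]
      have h6 : (3 : ℝ) ^ (1 / (l : ℝ)) ≤ 3 := by
        calc (3 : ℝ) ^ (1 / (l : ℝ)) ≤ 3 ^ (1 : ℝ) := by
              apply Real.rpow_le_rpow_of_exponent_le (by norm_num)
              rw [div_le_one hl0]
              exact_mod_cast hl
          _ = 3 := Real.rpow_one 3
      linarith [div_le_div_of_nonneg_right h6 (show (0 : ℝ) ≤ 72 by norm_num)]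
    calc (3 : ℝ) / 72 ^ l * (3 / 72 ^ l) ^ (1 / (l : ℝ)) ≤ 3 / 72 ^ l * (3 / 72) :=
          mul_le_mul_of_nonneg_left h4 (by positivity)
      _ = (1 / 8) / 72 ^ l := by ring
  have h7 : (0 : ℝ) ≤ n ^ (1 + 1 / (l : ℝ)) := by positivity
  calc (72 : ℝ) ^ l * (M * s ^ (1 + 1 / (l : ℝ)))
      ≤ 72 ^ l * (M * (n ^ (1 + 1 / (l : ℝ)) * ((1 / 8) / 72 ^ l))) := by
        apply mul_le_mul_of_nonneg_left _ hk.le
        apply mul_le_mul_of_nonneg_left _ hM
        exact h1.trans (h2.le.trans (mul_le_mul_of_nonneg_left h3 h7))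
    _ = M * n ^ (1 + 1 / (l : ℝ)) / 8 := by
        field_simp

theorem RGL : RGL_stmt := by
  classical
  intro l hl
  refine ⟨2 * 72 ^ l, by positivity, ?_⟩
  intro C₂ hC₂
  refine ⟨2 * C₂, by positivity, ?_⟩
  intro V _ A hA hcard hD
  set a : ℝ := 1 + 1 / (l : ℝ) with ha
  have ha0 : 0 < a := by
    have : (0 : ℝ) ≤ 1 / (l : ℝ) := by positivity
    linarith
  have hk1 : (72 : ℝ) ≤ 72 ^ l := by
    calc (72 : ℝ) = 72 ^ 1 := by norm_num
      _ ≤ 72 ^ l := pow_le_pow_right₀ (by norm_num) hl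
  have hk0 : (0 : ℝ) < 72 ^ l := by positivity
  let D : Finset V → ℝ := fun U => ∑ v ∈ U, (dg A U v : ℝ)
  have hDnn : ∀ U, 0 ≤ D U := fun U => Finset.sum_nonneg fun v _ => Nat.cast_nonneg _
  have : Nonempty V := Fintype.card_pos_iff.mp hcard
  -- the best set
  obtain ⟨U, hU, hmax⟩ := Finset.exists_max_image
    ((Finset.univ : Finset (Finset V)).filter (fun U => U.Nonempty))
    (fun U => D U / (U.card : ℝ) ^ a) ⟨Finset.univ, by simp [Finset.univ_nonempty]⟩
  have hUne : U.Nonempty := (Finset.mem_filter.mp hU).2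
  have hn0 : (0 : ℝ) < U.card := by exact_mod_cast hUne.card_pos
  have hna : (0 : ℝ) < (U.card : ℝ) ^ a := Real.rpow_pos_of_pos hn0 a
  have hC1 : 2 * C₂ ≤ D U / (U.card : ℝ) ^ a := by
    have h1 := hmax Finset.univ (by simp [Finset.univ_nonempty])
    have h2 : (0 : ℝ) < (Fintype.card V : ℝ) ^ a :=
      Real.rpow_pos_of_pos (by exact_mod_cast hcard) a
    refine le_trans ?_ h1
    rw [Finset.card_univ, le_div_iff₀ h2]
    exact hD
  have hDU : 2 * C₂ * (U.card : ℝ) ^ a ≤ D U := by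
    rwa [le_div_iff₀ hna] at hC1
  have hDU0 : 0 < D U := lt_of_lt_of_le (by positivity) hDU
  set T : Finset V := U.filter (fun v => (72 : ℝ) ^ l * D U < dg A U v * U.card) with hT
  have hTU : T ⊆ U := Finset.filter_subset _ _
  by_cases hTe : T = ∅
  · refine ⟨U, hUne, ?_, ?_⟩
    · refine le_trans ?_ hDU
      nlinarith
    · intro v hv
      have h1 : ¬ ((72 : ℝ) ^ l * D U < dg A U v * U.card) := by
        intro h
        have : v ∈ T := Finset.mem_filter.mpr ⟨hv, h⟩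
        rw [hTe] at this
        simp at this
      push Not at h1
      refine h1.trans ?_
      show 72 ^ l * D U ≤ 2 * 72 ^ l * D U
      nlinarith
  · have hTne : T.Nonempty := Finset.nonempty_iff_ne_empty.mpr hTe
    have hT0 : (1 : ℝ) ≤ T.card := by exact_mod_cast hTne.card_pos
    -- T is small
    have hTsmall : (72 : ℝ) ^ l * T.card < U.card := by
      have h1 : ∑ v ∈ T, (72 : ℝ) ^ l * D U < ∑ v ∈ T, (dg A U v : ℝ) * U.card := by
        apply Finset.sum_lt_sum_of_nonempty hTne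
        intro v hv
        exact (Finset.mem_filter.mp hv).2
      rw [Finset.sum_const, nsmul_eq_mul, ← Finset.sum_mul] at h1
      have h2 : ∑ v ∈ T, (dg A U v : ℝ) ≤ D U :=
        Finset.sum_le_sum_of_subset_of_nonneg hTU fun v _ _ => Nat.cast_nonneg _
      have h3 : (T.card : ℝ) * (72 ^ l * D U) < D U * U.card :=
        lt_of_lt_of_le h1 (mul_le_mul_of_nonneg_right h2 hn0.le)
      have h4 : (72 : ℝ) ^ l * T.card * D U < U.card * D U := by
        calc (72 : ℝ) ^ l * T.card * D U = (T.card : ℝ) * (72 ^ l * D U) := by ring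
          _ < D U * U.card := h3
          _ = U.card * D U := by ring
      exact lt_of_mul_lt_mul_right h4 hDU0.le
    have hUk : (72 : ℝ) ^ l < U.card := by
      calc (72 : ℝ) ^ l = 72 ^ l * 1 := by ring
        _ ≤ 72 ^ l * T.card := mul_le_mul_of_nonneg_left hT0 hk0.le
        _ < U.card := hTsmall
    have hUk' : 72 ^ l < U.card := by exact_mod_cast hUk
    -- block size
    obtain ⟨b, hb1, hb2, hb3⟩ : ∃ b : ℕ, (U.card : ℝ) / 72 ^ l ≤ b ∧
        (b : ℝ) ≤ 2 * U.card / 72 ^ l ∧ b ≤ U.card := by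
      have e1 : (U.card : ℝ) / 72 ^ l ≤ ((⌊(U.card : ℝ) / 72 ^ l⌋₊ + 1 : ℕ) : ℝ) := by
        push_cast
        exact (Nat.lt_floor_add_one _).le
      have e2 : ((⌊(U.card : ℝ) / 72 ^ l⌋₊ + 1 : ℕ) : ℝ) ≤ 2 * U.card / 72 ^ l := by
        push_cast
        have h1 := Nat.floor_le (show (0 : ℝ) ≤ (U.card : ℝ) / 72 ^ l by positivity)
        have h2 : 1 ≤ (U.card : ℝ) / 72 ^ l := by
          rw [le_div_iff₀ hk0]
          linarith
        have h3 : 2 * (U.card : ℝ) / 72 ^ l = U.card / 72 ^ l + U.card / 72 ^ l := by ring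
        rw [h3]
        linarith
      refine ⟨_, e1, e2, ?_⟩
      have e3 : ((⌊(U.card : ℝ) / 72 ^ l⌋₊ + 1 : ℕ) : ℝ) ≤ U.card := by
        refine e2.trans ?_
        rw [div_le_iff₀ hk0]
        nlinarith
      exact_mod_cast e3
    obtain ⟨B, hBU, hBc, hBs⟩ := RGL_top (fun w => (dg A T w : ℝ)) (fun w => Nat.cast_nonneg _)
      U.card U b rfl hb3
    set E : ℝ := ∑ w ∈ U, (dg A T w : ℝ) with hE
    have hEnn : 0 ≤ E := Finset.sum_nonneg fun v _ => Nat.cast_nonneg _
    have hTBsub : ∑ w ∈ B, (dg A T w : ℝ) ≤ D (T ∪ B) := by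
      calc ∑ w ∈ B, (dg A T w : ℝ) ≤ ∑ w ∈ B, (dg A (T ∪ B) w : ℝ) :=
            Finset.sum_le_sum fun w _ => by
              exact_mod_cast RGL_mono A Finset.subset_union_left w
        _ ≤ D (T ∪ B) := Finset.sum_le_sum_of_subset_of_nonneg Finset.subset_union_right
            fun v _ _ => Nat.cast_nonneg _
    have hE1 : E ≤ 72 ^ l * D (T ∪ B) := by
      have h1 : (U.card : ℝ) / 72 ^ l * E ≤ U.card * D (T ∪ B) :=
        calc (U.card : ℝ) / 72 ^ l * E ≤ b * E := mul_le_mul_of_nonneg_right hb1 hEnn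
          _ ≤ U.card * ∑ w ∈ B, (dg A T w : ℝ) := hBs
          _ ≤ U.card * D (T ∪ B) := mul_le_mul_of_nonneg_left hTBsub hn0.le
      have h2 : (U.card : ℝ) * E ≤ U.card * (72 ^ l * D (T ∪ B)) := by
        have h3 : (72 : ℝ) ^ l * ((U.card : ℝ) / 72 ^ l * E) = U.card * E := by
          field_simp
        rw [← h3]
        calc (72 : ℝ) ^ l * ((U.card : ℝ) / 72 ^ l * E) ≤ 72 ^ l * (U.card * D (T ∪ B)) :=
              mul_le_mul_of_nonneg_left h1 hk0.le
          _ = U.card * (72 ^ l * D (T ∪ B)) := by ring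
      exact le_of_mul_le_mul_left h2 hn0
    -- maximality for T ∪ B
    have hTBne : (T ∪ B).Nonempty := hTne.mono Finset.subset_union_left
    have hs0 : (0 : ℝ) < (T ∪ B).card := by exact_mod_cast hTBne.card_pos
    have hs : ((T ∪ B).card : ℝ) ≤ 3 * U.card / 72 ^ l := by
      have h1 : ((T ∪ B).card : ℝ) ≤ T.card + B.card := by exact_mod_cast Finset.card_union_le T B
      have h2 : (T.card : ℝ) ≤ U.card / 72 ^ l := by
        rw [le_div_iff₀ hk0]
        linarith
      have h3 : (3 : ℝ) * U.card / 72 ^ l = U.card / 72 ^ l + 2 * U.card / 72 ^ l := by ring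
      rw [h3]
      rw [hBc] at h1
      linarith
    have hM : D (T ∪ B) ≤ D U / (U.card : ℝ) ^ a * ((T ∪ B).card : ℝ) ^ a := by
      have h1 := hmax (T ∪ B) (by simp only [Finset.mem_filter, Finset.mem_univ, true_and]; exact hTBne)
      rwa [div_le_iff₀ (Real.rpow_pos_of_pos hs0 a)] at h1
    have hE2 : E ≤ D U / 8 := by
      have h1 := RGL_pow l hl (D U / (U.card : ℝ) ^ a) U.card (T ∪ B).card (by positivity) hn0
        hs0 hs
      rw [← ha] at h1
      have h2 : D U / (U.card : ℝ) ^ a * (U.card : ℝ) ^ a / 8 = D U / 8 := by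
        rw [div_mul_cancel₀ _ hna.ne']
      rw [h2] at h1
      calc E ≤ 72 ^ l * D (T ∪ B) := hE1
        _ ≤ 72 ^ l * (D U / (U.card : ℝ) ^ a * ((T ∪ B).card : ℝ) ^ a) :=
            mul_le_mul_of_nonneg_left hM hk0.le
        _ ≤ D U / 8 := h1
    -- the remaining set
    have hDsplit : D U ≤ D (U \ T) + 2 * E := by
      have h1 : D U = ∑ v ∈ U \ T, (dg A U v : ℝ) + ∑ v ∈ T, (dg A U v : ℝ) :=
        (Finset.sum_sdiff hTU).symm
      have h2 : ∑ v ∈ T, (dg A U v : ℝ) = E := RGL_dc A hA T U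
      have h3 : ∑ v ∈ U \ T, (dg A U v : ℝ) =
          D (U \ T) + ∑ v ∈ U \ T, (dg A T v : ℝ) := by
        show _ = ∑ v ∈ U \ T, (dg A (U \ T) v : ℝ) + _
        rw [← Finset.sum_add_distrib]
        refine Finset.sum_congr rfl fun v _ => ?_
        rw [RGL_split A hTU v]
        push_cast
        ring
      have h4 : ∑ v ∈ U \ T, (dg A T v : ℝ) ≤ E :=
        Finset.sum_le_sum_of_subset_of_nonneg Finset.sdiff_subset fun v _ _ => Nat.cast_nonneg _
      rw [h1, h2, h3]
      linarith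
    have hDT : D U / 2 ≤ D (U \ T) := by linarith
    have hne' : (U \ T).Nonempty := by
      by_contra h
      rw [Finset.not_nonempty_iff_eq_empty] at h
      have : D (U \ T) = 0 := by
        show ∑ v ∈ U \ T, (dg A (U \ T) v : ℝ) = 0
        rw [h]; simp
      linarith
    refine ⟨U \ T, hne', ?_, ?_⟩
    · have h1 : ((U \ T).card : ℝ) ^ a ≤ (U.card : ℝ) ^ a := by
        apply Real.rpow_le_rpow (Nat.cast_nonneg _) _ ha0.le
        exact_mod_cast Finset.card_le_card Finset.sdiff_subset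
      calc C₂ * ((U \ T).card : ℝ) ^ a ≤ C₂ * (U.card : ℝ) ^ a :=
            mul_le_mul_of_nonneg_left h1 hC₂.le
        _ ≤ D U / 2 := by linarith
        _ ≤ D (U \ T) := hDT
    · intro v hv
      have hv' := Finset.mem_sdiff.mp hv
      have h1 : ¬ ((72 : ℝ) ^ l * D U < dg A U v * U.card) := fun h =>
        hv'.2 (Finset.mem_filter.mpr ⟨hv'.1, h⟩)
      push Not at h1
      have h2 : (dg A (U \ T) v : ℝ) ≤ dg A U v := by
        exact_mod_cast RGL_mono A Finset.sdiff_subset v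
      have h3 : ((U \ T).card : ℝ) ≤ U.card := by
        exact_mod_cast Finset.card_le_card Finset.sdiff_subset
      calc (dg A (U \ T) v : ℝ) * (U \ T).card ≤ dg A U v * U.card :=
            mul_le_mul h2 h3 (Nat.cast_nonneg _) (Nat.cast_nonneg _)
        _ ≤ 72 ^ l * D U := h1
        _ ≤ 72 ^ l * (2 * D (U \ T)) := mul_le_mul_of_nonneg_left (by linarith) hk0.le
        _ = 2 * 72 ^ l * D (U \ T) := by ring

end Pool.Agent.helper23.TH
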