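import Pool.Agent.helper9.TH.Spec

/-!
# Row FU of helper9.TH
-/

namespace Pool.Agent.helper51.TH

open Pool.Agent.helper9.TH

universe u

theorem fu_mem_smul {p : ℕ} {G : Type u} [Group G] (P : Sylow p G) (g x : G) :
    g * x * g⁻¹ ∈ g • P ↔ x ∈ P :=
  Subgroup.smul_mem_pointwise_smul_iff (a := MulAut.conj g) (S := (P : Subgroup G)) (x := x)

theorem fu_key {p : ℕ} {G : Type u} [Group G] [Finite G] [Fact p.Prime] (D : Subgroup G)
    (R : Sylow p G) (h1 : D ≤ R) (h2 : D ≠ (R : Subgroup G)) :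
    ∃ x ∈ R, x ∈ Subgroup.normalizer (D : Set G) ∧ x ∉ D := by
  have hnil : Group.IsNilpotent R := IsPGroup.isNilpotent R.2
  have hnc : NormalizerCondition R := Group.normalizerCondition_of_isNilpotent
  have hlt : D.subgroupOf (R : Subgroup G) < ⊤ := by
    refine lt_top_iff_ne_top.2 (fun h => h2 ?_)
    rw [Subgroup.subgroupOf_eq_top] at h
    exact le_antisymm h1 h
  have h3 := hnc _ hlt
  rw [← Subgroup.subgroupOf_normalizer_eq h1] at h3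
  obtain ⟨x, hx1, hx2⟩ := SetLike.exists_of_lt h3
  exact ⟨x, x.2, hx1, hx2⟩

theorem FU (hPBb : PBb_stmt.{u}) : FU_stmt.{u} := by
  intro p G _ _ hp hHN
  haveI : Fact p.Prime := ⟨hp⟩
  obtain ⟨-, hcomm, -⟩ := hPBb
  suffices H : ∀ n : ℕ, ∀ P Q : Sylow p G,
      Nat.card G - Nat.card ((P : Subgroup G) ⊓ (Q : Subgroup G) : Subgroup G) = n →
      ∃ c : G, (∀ x : G, x ∈ P → x ∈ Q → c * x = x * c) ∧
        ∀ x : G, x ∈ P ↔ c * x * c⁻¹ ∈ Q from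
    fun P Q => H _ P Q rfl
  intro n
  induction n using Nat.strong_induction_on with
  | _ n ih =>
  intro P Q hn
  have IH : ∀ P' Q' : Sylow p G, (∀ x, x ∈ P → x ∈ Q → x ∈ P' ∧ x ∈ Q') →
      (∃ x, (x ∈ P' ∧ x ∈ Q') ∧ ¬ (x ∈ P ∧ x ∈ Q)) →
      ∃ c : G, (∀ x : G, x ∈ P' → x ∈ Q' → c * x = x * c) ∧
        ∀ x : G, x ∈ P' ↔ c * x * c⁻¹ ∈ Q' := by
    rintro P' Q' h1 ⟨x, h2, h3⟩
    refine ih _ ?_ P' Q' rfl
    have hle : (P : Subgroup G) ⊓ (Q : Subgroup G) ≤ (P' : Subgroup G) ⊓ (Q' : Subgroup G) :=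
      fun y hy => h1 y hy.1 hy.2
    have hc : Nat.card ((P : Subgroup G) ⊓ (Q : Subgroup G) : Subgroup G) <
        Nat.card ((P' : Subgroup G) ⊓ (Q' : Subgroup G) : Subgroup G) := by
      by_contra hcon
      have he := Subgroup.eq_of_le_of_card_ge hle (not_lt.1 hcon)
      apply h3
      have h4 : x ∈ (P' : Subgroup G) ⊓ (Q' : Subgroup G) := h2
      rw [← he] at h4
      exact h4
    have hc2 : Nat.card ((P' : Subgroup G) ⊓ (Q' : Subgroup G) : Subgroup G) ≤ Nat.card G :=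
      Nat.le_of_dvd Nat.card_pos (Subgroup.card_subgroup_dvd_card _)
    omega
  by_cases hbot : (P : Subgroup G) ⊓ (Q : Subgroup G) = ⊥
  · obtain ⟨g, hg⟩ := MulAction.exists_smul_eq G P Q
    refine ⟨g, fun x hx hy => ?_, fun x => ?_⟩
    · have h1 : x ∈ (P : Subgroup G) ⊓ (Q : Subgroup G) := ⟨hx, hy⟩
      rw [hbot, Subgroup.mem_bot] at h1
      rw [h1, mul_one, one_mul]
    · rw [← hg, fu_mem_smul]
  by_cases hPQ : P = Q
  · subst hPQ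
    exact ⟨1, fun x _ _ => by rw [one_mul, mul_one], fun x => by
      rw [one_mul, inv_one, mul_one]⟩
  obtain ⟨D, hD⟩ : ∃ D : Subgroup G, D = (P : Subgroup G) ⊓ (Q : Subgroup G) := ⟨_, rfl⟩
  rw [← hD] at hbot
  have hmemD : ∀ x, x ∈ P → x ∈ Q → x ∈ D := fun x h1 h2 => by rw [hD]; exact ⟨h1, h2⟩
  have hDP : D ≤ (P : Subgroup G) := by rw [hD]; exact inf_le_left
  have hDQ : D ≤ (Q : Subgroup G) := by rw [hD]; exact inf_le_right
  have hDp : IsPGroup p D := P.2.to_le hDP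
  obtain ⟨N, hN⟩ : ∃ N : Subgroup G, N = Subgroup.normalizer (D : Set G) := ⟨_, rfl⟩
  have hPN := hHN D hDp hbot
  rw [← hN] at hPN
  obtain ⟨K, hKn, hKc, l, hKi⟩ := hPN
  have hDN : D ≤ N := by rw [hN]; exact Subgroup.le_normalizer
  have hDnorm : (D.subgroupOf N).Normal := by
    rw [hN]; exact Subgroup.normal_in_normalizer
  have hcomm' := hcomm p N K (D.subgroupOf N) hp hKn hKc hDnorm
    (hDp.comap_of_injective N.subtype N.subtype_injective)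
  obtain ⟨x₀, hx₀P, hx₀N, hx₀D⟩ := fu_key D P hDP (fun h => hPQ (by
    apply Sylow.ext
    exact (P.is_maximal' Q.2 (h ▸ hDQ)).symm))
  obtain ⟨y₀, hy₀Q, hy₀N, hy₀D⟩ := fu_key D Q hDQ (fun h => hPQ (by
    apply Sylow.ext
    exact Q.is_maximal' P.2 (h ▸ hDP)))
  rw [← hN] at hx₀N hy₀N
  obtain ⟨P₁, hP₁⟩ := (P.2.comap_of_injective N.subtype N.subtype_injective).exists_le_sylow
  obtain ⟨Q₁, hQ₁⟩ := (Q.2.comap_of_injective N.subtype N.subtype_injective).exists_le_sylow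
  obtain ⟨g, hg⟩ := MulAction.exists_smul_eq N P₁ Q₁
  have hsup : K ⊔ (P₁ : Subgroup N) = ⊤ := by
    rw [← Subgroup.index_eq_one]
    have h1 : (K ⊔ (P₁ : Subgroup N)).index ∣ p ^ l :=
      hKi ▸ Subgroup.index_dvd_of_le le_sup_left
    have h2 : (K ⊔ (P₁ : Subgroup N)).index ∣ (P₁ : Subgroup N).index :=
      Subgroup.index_dvd_of_le le_sup_right
    obtain ⟨j, hj, hj2⟩ := (Nat.dvd_prime_pow hp).1 h1
    rcases j with _ | j
    · rw [hj2, pow_zero]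
    · exfalso
      apply P₁.not_dvd_index
      refine dvd_trans ?_ h2
      rw [hj2, pow_succ]
      exact dvd_mul_left _ _
  have hg' : g ∈ ((K ⊔ (P₁ : Subgroup N) : Subgroup N) : Set N) := by
    rw [hsup]; trivial
  rw [Subgroup.normal_mul K (P₁ : Subgroup N)] at hg'
  obtain ⟨k, hk, v, hv, hkv⟩ := Set.mem_mul.1 hg'
  have hkP : k • P₁ = Q₁ := by
    rw [← hg, ← hkv, mul_smul]
    congr 1
    exact (Sylow.smul_eq_iff_mem_normalizer.2 (Subgroup.le_normalizer hv)).symm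
  obtain ⟨P₂, hP₂⟩ := (P₁.2.map N.subtype).exists_le_sylow
  have hP₁₂ : ∀ x : N, x ∈ P₁ → (x : G) ∈ P₂ := fun x hx => hP₂ ⟨x, hx, rfl⟩
  have hPN : ∀ x ∈ P, x ∈ N → x ∈ P₂ := fun x hx hxN => hP₁₂ ⟨x, hxN⟩ (hP₁ hx)
  have hQN : ∀ x ∈ Q, x ∈ N → x ∈ ((k : G) • P₂ : Sylow p G) := by
    intro x hx hxN
    have h1 : (⟨x, hxN⟩ : N) ∈ Q₁ := hQ₁ hx
    have h2 : k⁻¹ * (⟨x, hxN⟩ : N) * k ∈ P₁ := by
      rw [← fu_mem_smul P₁ k, hkP]
      have h3 : k * (k⁻¹ * (⟨x, hxN⟩ : N) * k) * k⁻¹ = ⟨x, hxN⟩ := by group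
      rw [h3]
      exact h1
    have h4 := hP₁₂ _ h2
    rw [← fu_mem_smul P₂ (k : G)] at h4
    have h5 : (k : G) * ((k⁻¹ * (⟨x, hxN⟩ : N) * k : N) : G) * (k : G)⁻¹ = x := by
      have h3 : k * (k⁻¹ * (⟨x, hxN⟩ : N) * k) * k⁻¹ = ⟨x, hxN⟩ := by group
      exact congrArg Subtype.val h3
    rw [h5] at h4
    exact h4
  obtain ⟨c₁, hc₁, hc₁'⟩ := IH P P₂
    (fun x hx hy => ⟨hx, hPN x hx (hDN (hmemD x hx hy))⟩)
    ⟨x₀, ⟨hx₀P, hPN _ hx₀P hx₀N⟩, fun h => hx₀D (hmemD _ h.1 h.2)⟩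
  obtain ⟨c₂, hc₂, hc₂'⟩ := IH ((k : G) • P₂) Q
    (fun x hx hy => ⟨hQN x hy (hDN (hmemD x hx hy)), hy⟩)
    ⟨y₀, ⟨hQN _ hy₀Q hy₀N, hy₀Q⟩, fun h => hy₀D (hmemD _ h.1 h.2)⟩
  refine ⟨c₂ * k * c₁, fun x hx hy => ?_, fun x => ?_⟩
  · have hxN : x ∈ N := hDN (hmemD x hx hy)
    have e1 : c₁ * x = x * c₁ := hc₁ x hx (hPN x hx hxN)
    have e2 : (k : G) * x = x * k :=
      congrArg Subtype.val (hcomm' k hk ⟨x, hxN⟩ (hmemD x hx hy))
    have e3 : c₂ * x = x * c₂ := hc₂ x (hQN x hy hxN) hy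
    calc c₂ * k * c₁ * x = c₂ * k * (c₁ * x) := by group
      _ = c₂ * (k * x) * c₁ := by rw [e1]; group
      _ = (c₂ * x) * k * c₁ := by rw [e2]; group
      _ = x * (c₂ * k * c₁) := by rw [e3]; group
  · rw [hc₁' x, ← fu_mem_smul P₂ (k : G) (c₁ * x * c₁⁻¹), hc₂']
    have h6 : c₂ * (k * (c₁ * x * c₁⁻¹) * (k : G)⁻¹) * c₂⁻¹ =
        c₂ * k * c₁ * x * (c₂ * k * c₁)⁻¹ := by group
    rw [h6]

end Pool.Agent.helper51.TH
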