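import Pool.Agent.helper9.TH.Spec

/-!
# Row S1 of helper9.TH
-/

namespace Pool.Agent.helper51.TH

open Pool.Agent.helper9.TH

universe u

/-- the normalizer of `X` embeds in the normalizer of `X.map f` -/
theorem s1_pn_of_map (hPBa : PBa_stmt.{u}) {p : ℕ} (hp : p.Prime) {H G : Type u} [Group H]
    [Group G] [Finite H] [Finite G] (f : H →* G) (hf : Function.Injective f) (X : Subgroup H)
    (h : PN p (Subgroup.normalizer ((X.map f : Subgroup G) : Set G))) :
    PN p (Subgroup.normalizer (X : Set H)) := by
  have hmem : ∀ x : Subgroup.normalizer (X : Set H),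
      (f.comp (Subgroup.normalizer (X : Set H)).subtype) x ∈
        Subgroup.normalizer ((X.map f : Subgroup G) : Set G) := by
    intro x
    exact Subgroup.le_normalizer_map f (Subgroup.mem_map_of_mem f x.2)
  let g : Subgroup.normalizer (X : Set H) →*
      Subgroup.normalizer ((X.map f : Subgroup G) : Set G) :=
    (f.comp (Subgroup.normalizer (X : Set H)).subtype).codRestrict _ hmem
  have hg : Function.Injective g := by
    intro x y hxy
    have h1 : f x = f y := congrArg Subtype.val hxy
    exact Subtype.ext (hf h1)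
  exact hPBa.1 p _ _ hp g hg h

theorem S1 (hPBa : PBa_stmt.{u}) (hJBa : JBa_stmt.{u}) : S1_stmt.{u} := by
  obtain ⟨-, -, hJ, hO, -, -⟩ := hJBa
  constructor
  · intro p G _ _ P H hp hyp hPH
    obtain ⟨⟨hP1, hP2⟩, h1, h2⟩ := hyp
    have hmap : (P.subgroupOf H).map H.subtype = P := by
      rw [Subgroup.subgroupOf_map_subtype]
      exact inf_eq_left.2 hPH
    refine ⟨⟨?_, ?_⟩, ?_, ?_⟩
    · exact hP1.comap_of_injective H.subtype H.subtype_injective
    · intro hd
      exact hP2 (hd.trans (Subgroup.relIndex_dvd_index_of_le hPH))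
    · apply s1_pn_of_map hPBa hp H.subtype H.subtype_injective
      rw [← hJ p H G H.subtype (P.subgroupOf H) H.subtype_injective, hmap]
      exact h1
    · apply s1_pn_of_map hPBa hp H.subtype H.subtype_injective
      rw [← hO p H G H.subtype (P.subgroupOf H) H.subtype_injective, hmap]
      exact h2
  · intro p G _ _ P Q hp hyp hQ
    obtain ⟨⟨hP1, hP2⟩, h1, h2⟩ := hyp
    haveI : Fact p.Prime := ⟨hp⟩
    obtain ⟨g, hg⟩ := MulAction.exists_smul_eq G (hQ.1.toSylow hQ.2) (hP1.toSylow hP2)
    have hmap : Q.map (MulAut.conj g).toMonoidHom = P := by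
      have h3 := congrArg (fun S : Sylow p G => (S : Subgroup G)) hg
      simp only [Sylow.coe_subgroup_smul, IsPGroup.toSylow_coe] at h3
      rw [← h3]
      rfl
    have hinj : Function.Injective (MulAut.conj g).toMonoidHom := (MulAut.conj g).injective
    refine ⟨hQ, ?_, ?_⟩
    · apply s1_pn_of_map hPBa hp _ hinj
      rw [← hJ p G G _ Q hinj, hmap]
      exact h1
    · apply s1_pn_of_map hPBa hp _ hinj
      rw [← hO p G G _ Q hinj, hmap]
      exact h2

end Pool.Agent.helper51.TH
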